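import Pool.Agent.Lib.MP_abb58c_co.Main

/-! Trump's packing of eleven unit squares in a square is optimal: the exact value of `s(11)`. -/

namespace Pool.Agent.Results.MP_abb58c_co.ElevenSquares

open Pool.Agent.MP_abb58c_co

/-- **The value of `s(11)`.** The least side of a square into which eleven unit squares can be
packed (with arbitrary rotations) is attained and equals the side
`(6 t + 4) / (1 + 2 t - t ^ 2) = 3.8770835900...` of Trump's packing, where `t` is the unique root
of the octic `5 t^8 - 10 t^7 - 2 t^6 + 14 t^5 + 12 t^4 - 6 t^3 + 2 t^2 + 2 t - 1` between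
`0.3657693` and `0.3657694`. -/
theorem result :
    ∃ t : ℝ, (0.3657693 < t ∧ t < 0.3657694 ∧
      5*t^8 - 10*t^7 - 2*t^6 + 14*t^5 + 12*t^4 - 6*t^3 + 2*t^2 + 2*t - 1 = 0) ∧
    (∀ t' : ℝ, 0.3657693 < t' → t' < 0.3657694 →
      5*t'^8 - 10*t'^7 - 2*t'^6 + 14*t'^5 + 12*t'^4 - 6*t'^3 + 2*t'^2 + 2*t' - 1 = 0 → t' = t) ∧
    minSide 11 = (6*t + 4) / (1 + 2*t - t^2) ∧
    IsLeast {s | Packable 11 s} (minSide 11) ∧
    3.8770835900 < minSide 11 ∧ minSide 11 < 3.8770835901 :=
  statement

end Pool.Agent.Results.MP_abb58c_co.ElevenSquares
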